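import Pool.Agent.Helper56_MG.Stmts2
import Pool.Agent.Helper56_MG.Base3

/-!
# JCONST
-/

open Set

namespace Pool.Agent.MG.H83

open Pool.Agent.FL (Ix)

theorem jConst (hCst2 : Cst2Stmt JJ) (hProp : PropStmt JJ) : JConstStmt := by
  have h1 : ∀ (β : JJ) (p : Cond JJ), VB β p → ∀ (X : Type) (f : PJ → X), MeasC f → Dep β f →
      ∃ q, q ≤ p ∧ VB β q ∧ ∃ x, ∀ y ∈ q.body, f y = x := by
    intro β p hp X f hf hd
    exact (hCst2 β (hProp β).1 (hProp β).2.1).1 p hp X f hf hd
  refine ⟨h1, ?_, ?_⟩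
  · intro p A hA hn
    obtain ⟨q, h2, h3, h4⟩ := (hCst2 te (hProp te).1 (hProp te).2.1).2.2.1 p.1 p.2 A
      (fun n => (hA n).1) (fun n => (hA n).2) (fun n q hq hv => hn n ⟨q, hv⟩ hq)
    exact ⟨⟨q, h3⟩, h2, h4⟩
  · intro β i hi p hp X f hf hd
    obtain ⟨r, h2, h3, x, h4⟩ := h1 i (p.restr i) (hp.restr i) X f hf hd
    have h5 : r.restr i ≤ p.restr i := by
      rw [h3.below.restr_eq]
      exact h2
    refine ⟨Cond.glue r p i, Cond.glue_le_right h5, VB.glue h3 hp hi h5,
      fun j hj => Cond.glue_T_ge r p hj, fun j hj => ?_, x, fun y hy => ?_⟩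
    · change (j ∈ r.S ∧ j < i) ∨ (j ∈ p.S ∧ ¬ j < i) ↔ j ∈ p.S
      have : ¬ j < i := not_lt.2 hj
      tauto
    · exact h4 y (Cond.glue_le_left h3.below hy)

/-- Positions of the first one after a node. -/
theorem z1_get {t : Node} {k : ℕ} {x : R} (h : On (z1 t k) x) :
    x (t.length + k) = true ∧ ∀ i, t.length ≤ i → i < t.length + k → x i = false := by
  have h1 : pre x (z1 t k).length = z1 t k := h
  have hl : (z1 t k).length = t.length + k + 1 := by simp [z1]; omega
  have h2 : ∀ i (hi : i < (z1 t k).length), x i = (z1 t k)[i] := by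
    intro i hi
    have h3 : (pre x (z1 t k).length)[i]'(by simpa using hi) = (z1 t k)[i] := by
      simp only [h1]
    rwa [getElem_pre] at h3
  constructor
  · rw [h2 _ (by omega)]
    simp [z1]
  · intro i hi1 hi2
    rw [h2 i (by omega)]
    simp only [z1]
    rw [List.getElem_append_left (by simp; omega), List.getElem_append_right (by omega)]
    simp

theorem thinM (hJC : JConstStmt) : ThinmStmt := by
  classical
  intro γ d f hf hd B hB
  have hjt : JJ.m γ < te := JJ.m_lt_t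
  have hty : ty (JJ.m γ) = true := rfl
  -- the splitting node
  obtain ⟨c, hc1, hc2, hc3⟩ := exists_sel (X := Node) Set.univ (Set.to_countable _)
    (fun t y => t ∈ d.1.T (JJ.m γ) y ∧ Spl true (d.1.T (JJ.m γ) y) t) (by
      intro t _
      exact (d.1.meas (JJ.m γ) (measurableSet_mem_node t)).inter
        (measurableSet_setOfPred.2 ((measurable_spl true t).comp (d.1.meas (JJ.m γ))))) (Set.Iio (JJ.m γ))
    (by
      intro t _ y y' h
      simp only [d.1.dep (JJ.m γ) y y' h])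
  obtain ⟨q1, h1, h2, h3, -, t, h4⟩ := hJC.2.2 te (JJ.m γ) hjt.le d.1 d.2 Node c hc1 hc2
  obtain ⟨n, hnB, hn⟩ := hB.exists_gt t.length
  obtain ⟨k, hk1, hk2, hk3⟩ := exists_sel (X := ℕ) Set.univ (Set.to_countable _)
    (fun k y => z1 t k ∈ d.1.T (JJ.m γ) y ∧ f y n < t.length + k ∧ n ≤ t.length + k) (by
      intro k _
      refine (d.1.meas (JJ.m γ) (measurableSet_mem_node _)).inter (MeasurableSet.inter ?_
        (MeasurableSet.const _))
      have h5 : Measurable fun y => f y n := (measurable_pi_apply n).comp hf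
      exact h5 (measurableSet_Iio (a := t.length + k))) (Set.Iio (JJ.m γ))
    (by
      intro k _ y y' h
      have h5 : f y = f y' := hd y y' h
      simp only [d.1.dep (JJ.m γ) y y' h, h5])
  let T' : PJ → Set Node := fun y => subT (d.1.T (JJ.m γ) y) (z1 t (k y))
  have hT'm : Measurable T' := hk1.bind (g := fun k y => subT (d.1.T (JJ.m γ) y) (z1 t k))
    fun k => (measurable_subT _).comp (d.1.meas _)
  have hT'd : Dep (JJ.m γ) T' := by
    intro y y' h
    simp only [T', d.1.dep (JJ.m γ) y y' h, hk2 y y' h]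
  have hsplit : ∀ y ∈ (q1.restr (JJ.m γ)).body, z1 t (k y) ∈ d.1.T (JJ.m γ) y ∧
      f y n < t.length + k y ∧ n ≤ t.length + k y := by
    intro y hy
    obtain ⟨y', h5, h6⟩ := q1.exists_ext (JJ.m γ) y (Cond.mem_restr.1 hy)
    have h7 : c y = t := by
      rw [← hc2 y' y fun i hi => h6 i hi]
      exact h4 y' h5
    have h8 : t ∈ d.1.T (JJ.m γ) y ∧ Spl true (d.1.T (JJ.m γ) y) t := by
      have h9 : ∃ x ∈ (Set.univ : Set Node), x ∈ d.1.T (JJ.m γ) y ∧
          Spl true (d.1.T (JJ.m γ) y) x := by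
        obtain ⟨u, hu, -, hu2⟩ := (d.1.good (JJ.m γ) y).spl [] (d.1.good (JJ.m γ) y).nil
        exact ⟨u, trivial, hu, hu2⟩
      have h10 := (hc3 y h9).2
      rwa [h7] at h10
    apply (hk3 y _).2
    obtain ⟨k', hk', hk''⟩ := h8.2 (f y n + n + 1)
    exact ⟨k', trivial, hk'', by omega, by omega⟩
  have hle : q1.setT (JJ.m γ) T' hT'm hT'd ≤ q1 := by
    apply Cond.setT_le
    intro y hy
    obtain ⟨h5, h6, h7⟩ := hsplit y hy
    refine ⟨(d.1.good (JJ.m γ) y).subT h5, ?_⟩
    rw [h3 _ le_rfl]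
    exact fun s hs => hs.1
  have hv : VB te (q1.setT (JJ.m γ) T' hT'm hT'd) := by
    apply VB.setT h2 hjt
    · intro y hy
      obtain ⟨h5, h6, h7⟩ := hsplit y hy
      refine ⟨(d.1.good (JJ.m γ) y).subT h5, ?_⟩
      rw [h3 _ le_rfl]
      exact fun s hs => hs.1
    · intro h
      rw [hty] at h
      exact absurd h (by simp)
  refine ⟨⟨_, hv⟩, ?_, n, hnB, ?_⟩
  · exact le_trans (α := Cond JJ) hle h1
  · intro z hz
    have hz1 : z ∈ (q1.restr (JJ.m γ)).body := Cond.mem_restr_of_mem (hle hz)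
    obtain ⟨h5, h6, h7⟩ := hsplit z hz1
    have h8 := hz (JJ.m γ) (Set.mem_insert _ _)
    have h8 := h8.1
    have h9 : (q1.setT (JJ.m γ) T' hT'm hT'd).T (JJ.m γ) z = T' z :=
      Cond.setT_T_self q1 T' hT'm hT'd ((d.1.good (JJ.m γ) z).subT h5)
    rw [h9] at h8
    obtain ⟨h10, h11⟩ := z1_get (mem_bS_subT h8).2
    have h12 : nxt (z (JJ.m γ)) n ∈ {k | n ≤ k ∧ z (JJ.m γ) k = true} :=
      Nat.sInf_mem ⟨_, h7, h10⟩
    by_contra hcon
    have h13 : nxt (z (JJ.m γ)) n < t.length + k z := by omega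
    have h14 := h11 _ (by have := h12.1; omega) h13
    rw [h12.2] at h14
    exact absurd h14 (by simp)

end Pool.Agent.MG.H83
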