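import Pool.Agent.Helper56_MG.Stmts2
import Pool.Agent.Helper56_MG.Base3

/-!
# JDOM
-/

open Set

namespace Pool.Agent.MG.H83

open Pool.Agent.FL (Ix)

/-- Slow trees. -/
def slow (h : ℕ → ℕ) : Set Node :=
  {t | ∀ i (hi : i < t.length), t[i] = true → h ((t.take i).count true) ≤ i}

theorem slow_good (h : ℕ → ℕ) : Good true (slow h) := by
  refine ⟨fun i hi => by simp at hi, ?_, ?_⟩
  · intro s a hs i hi h1
    have h2 := hs i (by simp; omega) (by rwa [List.getElem_append_left hi])
    rwa [List.take_append_of_le_length hi.le] at h2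
  · intro s hs
    refine ⟨s, hs, List.prefix_rfl, fun n => ⟨n + h (s.count true), by omega, ?_⟩⟩
    intro i hi h1
    have hl : (s ++ List.replicate (n + h (s.count true)) false ++ [true]).length =
        s.length + (n + h (s.count true)) + 1 := by simp; omega
    rw [hl] at hi
    rcases Nat.lt_or_ge i s.length with h2 | h2
    · have h3 : (s ++ List.replicate (n + h (s.count true)) false ++ [true])[i]'(by
          rw [hl]; exact hi) = s[i] := by
        rw [List.getElem_append_left (by simp; omega), List.getElem_append_left h2]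
      rw [h3] at h1
      have h4 := hs i h2 h1
      rwa [List.append_assoc, List.take_append_of_le_length h2.le]
    · rcases Nat.lt_or_ge i (s.length + (n + h (s.count true))) with h3 | h3
      · exfalso
        have h4 : (s ++ List.replicate (n + h (s.count true)) false ++ [true])[i]'(by
            rw [hl]; exact hi) = false := by
          rw [List.getElem_append_left (by simp; omega), List.getElem_append_right h2]
          simp
        rw [h4] at h1
        simp at h1
      · have h4 : i = s.length + (n + h (s.count true)) := by omega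
        have h5 : ((s ++ List.replicate (n + h (s.count true)) false ++ [true]).take i).count true =
            s.count true := by
          have h6 : (s ++ List.replicate (n + h (s.count true)) false ++ [true]).take i =
              s ++ List.replicate (n + h (s.count true)) false := by
            rw [List.take_append_of_le_length (by simp; omega), List.take_of_length_le]
            simp; omega
          rw [h6, List.count_append, List.count_replicate]
          simp
        rw [h5]
        omega

theorem count_pre (x : R) (n : ℕ) : (pre x n).count true = Nat.count (fun k => x k = true) n := by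
  induction n with
  | zero => simp
  | succ n ih =>
    rw [pre_succ, List.count_append, ih, Nat.count_succ]
    cases h : x n <;> simp

theorem slow_branch {h : ℕ → ℕ} {x : R} (hx : x ∈ bd true (slow h)) :
    Inf1 x ∧ ∀ n, h n ≤ el x n := by
  have hinf : Inf1 x := hx.2 rfl
  refine ⟨hinf, fun n => ?_⟩
  have hset : {k | x k = true}.Infinite := by
    apply Set.infinite_of_forall_exists_gt
    intro n
    obtain ⟨k, h1, h2⟩ := hinf (n + 1)
    exact ⟨k, h2, h1⟩
  have h1 : x (el x n) = true := Nat.nth_mem_of_infinite (p := fun k => x k = true) hset n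
  have h2 : Nat.count (fun k => x k = true) (el x n) = n :=
    Nat.count_nth_of_infinite (p := fun k => x k = true) hset n
  have h3 := hx.1 (el x n + 1) (el x n) (by simp) (by rw [getElem_pre]; exact h1)
  rw [take_pre x (Nat.le_succ _), count_pre, h2] at h3
  exact h3

theorem measurable_slow {Ω : Type*} [MeasurableSpace Ω] {h : Ω → ℕ → ℕ} (hh : Measurable h) :
    Measurable (fun w => slow (h w)) := by
  rw [measurable_node_iff]
  intro s
  have : {w | s ∈ slow (h w)} = ⋂ i : Fin s.length, {w | s[i] = true →
      h w ((s.take i).count true) ≤ i} := by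
    ext w
    simp only [slow, Set.mem_ofPred_eq, Set.mem_iInter]
    exact ⟨fun h i => h i.1 i.2, fun h i hi => h ⟨i, hi⟩⟩
  rw [this]
  refine MeasurableSet.iInter fun i => ?_
  by_cases hi : s[i] = true
  · simp only [hi, true_imp_iff]
    have h1 : Measurable fun w => h w ((s.take i).count true) := (measurable_pi_apply _).comp hh
    exact h1 (measurableSet_Iic (a := (i : ℕ)))
  · have h2 : {w | s[i] = true → h w ((s.take i).count true) ≤ i} = Set.univ :=
      Set.eq_univ_of_forall fun w h3 => absurd h3 hi
    rw [h2]
    exact MeasurableSet.univ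

theorem jDom (hB : BndStmt) : JDomStmt := by
  intro h hh r b0
  obtain ⟨k1, hk1⟩ := hB.2.1 r.1 r.2.below
  obtain ⟨k2, hk2⟩ := hB.2.2.2.1 h hh
  obtain ⟨b, hb⟩ := ix_exists_gt (max b0 (max k1 k2))
  have hb0 : b0 < b := lt_of_le_of_lt (le_max_left _ _) hb
  have hb1 : k1 < b := lt_of_le_of_lt ((le_max_left _ _).trans (le_max_right _ _)) hb
  have hb2 : k2 < b := lt_of_le_of_lt ((le_max_right _ _).trans (le_max_right _ _)) hb
  have hrb : r.1.Below (JJ.m b) := hk1.mono (JJ.s_lt_m.2 hb1.le).le
  have hd : Dep (JJ.m b) h := hk2.mono (JJ.s_lt_m.2 hb2.le).le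
  have h1 : Measurable fun y : PJ => slow (h y) := measurable_slow hh.1
  have h2 : Dep (JJ.m b) fun y : PJ => slow (h y) := by
    intro y y' hy
    simp only [hd y y' hy]
  have h3 : ∀ y ∈ (r.1.restr (JJ.m b)).body, Good (ty (JJ.m b)) (slow (h y)) ∧
      slow (h y) ⊆ r.1.T (JJ.m b) y := by
    intro y _
    refine ⟨slow_good _, ?_⟩
    rw [hrb.T_eq le_rfl]
    exact Set.subset_univ _
  refine ⟨⟨r.1.setT (JJ.m b) _ h1 h2, VB.setT r.2 JJ.m_lt_t _ h1 h2 h3 ?_⟩, ?_, b, hb0, ?_⟩
  · intro h4
    exact absurd h4 (by simp)
  · exact Cond.setT_le r.1 _ h1 h2 h3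
  · intro z hz
    have h4 := hz (JJ.m b) (Set.mem_insert _ _)
    have h5 : (r.1.setT (JJ.m b) _ h1 h2).T (JJ.m b) z = slow (h z) :=
      Cond.setT_T_self r.1 _ h1 h2 (slow_good _)
    have h6 : z (JJ.m b) ∈ bd (ty (JJ.m b)) ((r.1.setT (JJ.m b) _ h1 h2).T (JJ.m b) z) := h4
    rw [h5] at h6
    exact slow_branch h6

end Pool.Agent.MG.H83
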